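import Pool.Agent.Q7.LS.Stm
import Pool.Agent.Q224.LK.CR2LA
import Pool.Agent.Q277.LK.Bas

/-!
Project LS (helper7), job CLA: the condition at the primes above `p`, `d` a local `p`-th power, for elements which are only
units at the primes above `v`.
-/

set_option autoImplicit false

namespace Pool.Agent.Q181.LS

open NumberField IsDedekindDomain Filter Topology Finset
open Pool.Agent.Q7.LK
open Pool.Agent.Q7.LS
open Pool.Agent.Y682 (vv vv_coe)
open Pool.Agent.Q285.LK (exists_proot cpl_coe vv_nat)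
open Pool.Agent.Q224.LK (exists_emb int_le exists_small hilb90 norm_eq)

section

variable {F L : Type} [Field F] [NumberField F] [Field L] [NumberField L] [Algebra F L]
variable {v : HeightOneSpectrum (𝓞 F)}

/-- the elements of `𝓞 L` which are mapped to elements of positive valuation -/
noncomputable def prId (τ : L →ₐ[F] v.adicCompletion F) : Ideal (𝓞 L) where
  carrier := {x | vv v (τ (x : L)) < 1}
  zero_mem' := by
    change vv v (τ ((0 : 𝓞 L) : L)) < 1
    simp
  add_mem' := by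
    intro a b ha hb
    change vv v (τ ((a + b : 𝓞 L) : L)) < 1
    have e1 : ((a + b : 𝓞 L) : L) = (a : L) + (b : L) := rfl
    rw [e1, map_add]
    exact (Valuation.map_add _ _ _).trans_lt (max_lt ha hb)
  smul_mem' := by
    intro c a ha
    change vv v (τ ((c • a : 𝓞 L) : L)) < 1
    have e1 : ((c • a : 𝓞 L) : L) = (c : L) * (a : L) := rfl
    rw [e1, map_mul, map_mul]
    exact (mul_le_of_le_one_left' (int_le τ c)).trans_lt ha

theorem mem_prId (τ : L →ₐ[F] v.adicCompletion F) (x : 𝓞 L) : x ∈ prId τ ↔ vv v (τ (x : L)) < 1 := Iff.rfl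

theorem prId_map (τ : L →ₐ[F] v.adicCompletion F) :
    v.asIdeal.map (algebraMap (𝓞 F) (𝓞 L)) ≤ prId τ := by
  rw [Ideal.map_le_iff_le_comap]
  intro a ha
  rw [Ideal.mem_comap, mem_prId]
  have e1 : ((algebraMap (𝓞 F) (𝓞 L) a : 𝓞 L) : L) = algebraMap F L (a : F) := rfl
  rw [e1, AlgHom.commutes, vv_coe]
  exact (v.valuation_lt_one_iff_mem (K := F) a).2 ha

theorem prId_prime (τ : L →ₐ[F] v.adicCompletion F) : (prId τ).IsPrime := by
  refine ⟨?_, ?_⟩
  · rw [Ideal.ne_top_iff_one, mem_prId]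
    have e2 : ((1 : 𝓞 L) : L) = 1 := map_one (algebraMap (𝓞 L) L)
    rw [e2, map_one, map_one]
    exact lt_irrefl _
  · intro a b hab
    rw [mem_prId] at hab ⊢
    rw [mem_prId]
    by_contra hcon
    push Not at hcon
    have e1 : ((a * b : 𝓞 L) : L) = (a : L) * (b : L) := rfl
    rw [e1, map_mul, map_mul] at hab
    exact absurd hab (not_lt.2 (one_le_mul hcon.1 hcon.2))

theorem prId_ne (τ : L →ₐ[F] v.adicCompletion F) : prId τ ≠ ⊥ := by
  intro h
  have h1 := prId_map τ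
  rw [h, le_bot_iff, Ideal.map_eq_bot_iff_of_injective (RingOfIntegers.algebraMap.injective F L)] at h1
  exact v.ne_bot h1

/-- the prime of `L` above `v` which belongs to the embedding `τ` -/
noncomputable def pr (τ : L →ₐ[F] v.adicCompletion F) : HeightOneSpectrum (𝓞 L) :=
  ⟨prId τ, prId_prime τ, prId_ne τ⟩

theorem pr_ab (τ : L →ₐ[F] v.adicCompletion F) : Ab v (pr τ) := prId_map τ

theorem pr_le (τ : L →ₐ[F] v.adicCompletion F) {x : L} (hx : (pr τ).valuation L x ≤ 1) : vv v (τ x) ≤ 1 := by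
  obtain ⟨n, ⟨d, hd⟩, h⟩ := (pr τ).exists_primeCompl_mul_eq_of_integer x hx
  have h1 : ¬ vv v (τ (d : L)) < 1 := hd
  have h2 : vv v (τ (d : L)) = 1 := le_antisymm (int_le τ d) (not_lt.1 h1)
  have h3 : x * (d : L) = (n : L) := h
  have h4 := congrArg (fun z => vv v (τ z)) h3
  simp only [map_mul] at h4
  rw [h2, mul_one] at h4
  rw [h4]
  exact int_le τ n

/-- elements that are integral at all primes above `v` have integral images -/
theorem loc_int (τ : L →ₐ[F] v.adicCompletion F) {x : L}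
    (hx : ∀ P : HeightOneSpectrum (𝓞 L), Ab v P → P.valuation L x ≤ 1) : vv v (τ x) ≤ 1 :=
  pr_le τ (hx _ (pr_ab τ))

theorem near {p : ℕ} (hp : p.Prime) (hv : Dp p v) (τ : L →ₐ[F] v.adicCompletion F) (N : ℕ) {x : L}
    (hx : Nr p {v} N x) : vv v (τ x - 1) ≤ WithZero.exp (-(N : ℤ)) := by
  have hp0 : ((p : L) ^ N) ≠ 0 := pow_ne_zero _ (by exact_mod_cast hp.ne_zero)
  have h1 : vv v (τ ((x - 1) / (p : L) ^ N)) ≤ 1 := by
    apply loc_int
    intro P hP
    rw [map_div₀]
    exact div_le_one_of_le₀ (hx v rfl P hP) zero_le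
  have e1 : τ x - 1 = τ ((x - 1) / (p : L) ^ N) * ((p : v.adicCompletion F)) ^ N := by
    rw [map_div₀, map_sub, map_one, map_pow, map_natCast, div_mul_cancel₀]
    have := (map_ne_zero τ).2 hp0
    rwa [map_pow, map_natCast] at this
  have e2 : vv v ((p : v.adicCompletion F)) ≤ WithZero.exp (-(1 : ℤ)) := by
    have e3 : (p : v.adicCompletion F) = ((((p : 𝓞 F) : F)) : v.adicCompletion F) := by
      have h5 : (((p : 𝓞 F) : F)) = (p : F) := map_natCast (algebraMap (𝓞 F) F) p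
      rw [h5]
      exact (map_natCast (algebraMap F (v.adicCompletion F)) p).symm
    have h6 : v.valuation F (((p : 𝓞 F) : F)) ≤ WithZero.exp (-(1 : ℤ)) := by
      have h1 : (p : 𝓞 F) ∈ v.asIdeal ^ 1 := by
        rw [pow_one]
        exact hv
      have h2 := (v.intValuation_le_pow_iff_mem (p : 𝓞 F) 1).2 h1
      have h3 := v.valuation_of_algebraMap (K := F) (p : 𝓞 F)
      rw [← h3] at h2
      exact_mod_cast h2
    rw [e3]
    have := vv_coe v (((p : 𝓞 F) : F))
    rw [← this] at h6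
    exact h6
  rw [e1, map_mul, map_pow]
  refine (mul_le_of_le_one_left' h1).trans ((pow_le_pow_left₀ zero_le e2 N).trans ?_)
  rw [← WithZero.exp_nsmul]
  simp

end

theorem cla_raw (hCPL : S_CPL) : S_CLA := by
  intro p hp hp2 F L _ _ _ _ _ ζ d hζ hK hd σ hσ v hv w M hwu hw y hy0 hy hLd
  -- an embedding of `L` into the completion
  obtain ⟨_, δ, hδ⟩ := (hCPL p F v d).1 hLd
  rw [cpl_coe] at hδ
  obtain ⟨τ⟩ := exists_emb hζ hK hd (E := v.adicCompletion F) hδ.symm
  have hpK : ((p : v.adicCompletion F)) ≠ 0 := by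
    have e : (p : v.adicCompletion F) = algebraMap F _ (p : F) := by rw [map_natCast]
    rw [e]
    exact (map_ne_zero _).2 (by exact_mod_cast hp.out.ne_zero)
  have hq2 : 2 ≤ p ^ (M + 1) := by
    calc 2 ≤ p := hp.out.two_le
      _ = p ^ 1 := (pow_one p).symm
      _ ≤ p ^ (M + 1) := Nat.pow_le_pow_right hp.out.pos (by omega)
  have hqK : ((p ^ (M + 1) : ℕ) : v.adicCompletion F) ^ 2 ≠ 0 := by
    rw [Nat.cast_pow]
    exact pow_ne_zero _ (pow_ne_zero _ hpK)
  obtain ⟨N, hN⟩ := exists_small hqK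
  obtain ⟨η, hη1, _, hη2⟩ := hw N
  obtain ⟨c, hc0, hc⟩ := hilb90 hζ hK hd hσ hη1
  set W : L := ((w * η ^ p : Lˣ) : L) with hW
  have hW' : W = (w : L) * (η : L) ^ p := by rw [hW, Units.val_mul, Units.val_pow_eq_pow_val]
  have hW0 : W ≠ 0 := (w * η ^ p : Lˣ).ne_zero
  set Y : L := y * c ^ p with hY
  have hσY : σ Y = W * Y := by
    rw [hY, hW', map_mul, map_pow, ← hy, ← hc]
    ring
  have hη3 : Nr p {v} N (W ^ p ^ M) := by
    rw [Units.val_pow_eq_pow_val] at hη2
    exact hη2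
  -- the conjugates of `W` in the completion
  have hx : ∀ k : ℕ, ∃ ξ s : v.adicCompletion F, ξ ^ p ^ M = 1 ∧ τ ((σ ^ k) W) = ξ * s ^ p := by
    intro k
    set τk : L →ₐ[F] v.adicCompletion F := τ.comp ((σ ^ k : L ≃ₐ[F] L) : L →ₐ[F] L) with hτk
    have h1 := near hp.out hv τk N hη3
    rw [map_pow] at h1
    have h3 : τk W = τ ((σ ^ k) W) := rfl
    rw [h3] at h1
    obtain ⟨s, hs⟩ := exists_proot v hq2 (τ ((σ ^ k) W) ^ p ^ M - 1) (h1.trans_lt hN)
    rw [add_sub_cancel] at hs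
    have hWne : τ ((σ ^ k) W) ≠ 0 := by
      rw [Ne, map_eq_zero, map_eq_zero]
      exact hW0
    have hs0 : s ≠ 0 := by
      rintro rfl
      rw [zero_pow (by positivity)] at hs
      exact pow_ne_zero _ hWne hs.symm
    refine ⟨τ ((σ ^ k) W) / s ^ p, s, ?_, by rw [div_mul_cancel₀ _ (pow_ne_zero _ hs0)]⟩
    rw [div_pow, ← pow_mul, ← hs, pow_succ', div_self]
    rw [← pow_succ', hs]
    exact pow_ne_zero _ hWne
  choose ξ s hξ hτ using hx
  have hconj : ∀ i : ℕ, τ ((σ ^ i) Y) = (∏ j ∈ range i, ξ j) * (∏ j ∈ range i, s j) ^ p * τ Y := by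
    intro i
    induction i with
    | zero => simp
    | succ i ih =>
      have h1 : (σ ^ (i + 1)) Y = (σ ^ i) W * (σ ^ i) Y := by
        rw [pow_succ, AlgEquiv.mul_apply, hσY, map_mul]
      rw [h1, map_mul, ih, hτ, Finset.prod_range_succ, Finset.prod_range_succ]
      ring
  have hnorm : algebraMap F (v.adicCompletion F) (Algebra.norm F Y) =
      (∏ i ∈ range p, ∏ j ∈ range i, ξ j) * ((∏ i ∈ range p, ∏ j ∈ range i, s j) * τ Y) ^ p := by
    rw [← AlgHom.commutes τ, norm_eq hK.deg hσ, map_prod, Finset.prod_congr rfl fun i _ => hconj i,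
      Finset.prod_mul_distrib, Finset.prod_mul_distrib, Finset.prod_const, Finset.card_range, Finset.prod_pow, mul_pow,
      mul_assoc]
  set Ξ := ∏ i ∈ range p, ∏ j ∈ range i, ξ j with hΞ
  have hΞ1 : Ξ ^ p ^ M = 1 := by
    rw [hΞ, ← Finset.prod_pow]
    refine Finset.prod_eq_one fun i _ => ?_
    rw [← Finset.prod_pow]
    exact Finset.prod_eq_one fun j _ => hξ j
  have hΞ0 : Ξ ≠ 0 := by
    intro h
    rw [h, zero_pow (pow_pos hp.out.pos M).ne'] at hΞ1
    exact zero_ne_one hΞ1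
  have hNc : Algebra.norm F c ≠ 0 := Algebra.norm_ne_zero_iff.2 hc0
  have hNcK : algebraMap F (v.adicCompletion F) (Algebra.norm F c) ≠ 0 := (map_ne_zero _).2 hNc
  rw [hY, map_mul, map_pow, map_mul, map_pow] at hnorm
  refine ⟨Ξ⁻¹, ((∏ i ∈ range p, ∏ j ∈ range i, s j) * τ Y) / algebraMap F (v.adicCompletion F) (Algebra.norm F c),
    ⟨M, by rw [inv_pow, hΞ1, inv_one]⟩, ?_⟩
  rw [cpl_coe, div_pow, eq_div_iff (pow_ne_zero _ hNcK), mul_right_comm, hnorm, hY]
  rw [mul_right_comm, mul_inv_cancel₀ hΞ0, one_mul]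

theorem cla : S_CLA := cla_raw (Pool.Agent.Q285.LK.cpl Pool.Agent.Q277.LK.bas)

end Pool.Agent.Q181.LS
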